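import Mathlib
import Pool.Agent.Work.MP_345ef2_gt.Account3
import Pool.Agent.Work.MP_345ef2_gt.Count2
import Pool.Agent.Work.MP_345ef2_gt.Count3

/-!
# Flag compact hyperbolic Coxeter polytopes (MP_345ef2_gt)

If every set of pairwise intersecting facets has a common point, then every 2-face has at least
four sides, every quadrangular 2-face has a vertex at which the two facets that cut out its sides
are joined by an edge of the Coxeter diagram, and the diagram of a vertex is a forest.  With
Nikulin's inequality this gives `n ≤ 12`.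
-/

namespace MP345

open Finset

variable {n : ℕ}

namespace CoxData

variable (D : CoxData n)

/-- every set of pairwise intersecting facets has a common point -/
def Flag : Prop := ∀ S : Finset D.ι, (∀ i ∈ S, ∀ j ∈ S, PD D.g {i, j}) → PD D.g S

theorem fl_sub {T : Finset D.ι} (hT : PD D.g T) {i j : D.ι} (hi : i ∈ T) (hj : j ∈ T) :
    PD D.g {i, j} := by
  refine hT.mono fun x hx => ?_
  simp only [Finset.mem_insert, Finset.mem_singleton] at hx
  rcases hx with rfl | rfl
  · exact hi
  · exact hj

/-- the quadratic form on a pair -/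
theorem fl_qf_pair {i j : D.ι} (hij : i ≠ j) {c : D.ι → ℝ}
    (hc : ∀ k, k ∉ ({i, j} : Finset D.ι) → c k = 0) :
    qf D.g c = c i ^ 2 + c j ^ 2 + 2 * (c i * c j * D.g i j) := by
  have hsum : ∀ f : D.ι → ℝ, (∀ k, k ∉ ({i, j} : Finset D.ι) → f k = 0) →
      ∑ k, f k = f i + f j := by
    intro f hf
    rw [← Finset.sum_subset (Finset.subset_univ {i, j}) fun k _ hk => hf k hk,
      Finset.sum_pair hij]
  unfold qf bf
  rw [hsum _ (fun k hk => Finset.sum_eq_zero fun l _ => by rw [hc k hk]; ring)]
  rw [hsum _ (fun k hk => by rw [hc k hk]; ring), hsum _ (fun k hk => by rw [hc k hk]; ring)]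
  rw [D.self, D.self, D.symm j i]; ring

theorem fl_pd_pair {i j : D.ι} (hij : i ≠ j) (h : -1 < D.g i j) : PD D.g {i, j} := by
  intro c hc hc0
  have hle := D.g_nonpos hij
  have hne : c i ≠ 0 ∨ c j ≠ 0 := by
    by_contra h1
    push Not at h1
    apply hc0
    funext k
    by_cases hk : k ∈ ({i, j} : Finset D.ι)
    · simp only [Finset.mem_insert, Finset.mem_singleton] at hk
      rcases hk with rfl | rfl
      · exact h1.1
      · exact h1.2
    · exact hc k hk
  rw [D.fl_qf_pair hij hc]
  have hsq : 0 < c i ^ 2 + c j ^ 2 := by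
    rcases hne with h1 | h1 <;> positivity
  rcases le_total 0 (c i * c j) with h1 | h1
  · nlinarith [sq_nonneg (c i - c j), sq_nonneg (c i + c j)]
  · nlinarith [sq_nonneg (c i - c j), sq_nonneg (c i + c j)]

theorem fl_pd_single (i : D.ι) : PD D.g {i, i} := by
  intro c hc hc0
  have hne : c i ≠ 0 := by
    intro h1
    apply hc0
    funext k
    by_cases hk : k = i
    · rw [hk, h1]; rfl
    · exact hc k (by simp [hk])
  have hsum : ∀ f : D.ι → ℝ, (∀ k, k ≠ i → f k = 0) → ∑ k, f k = f i := by
    intro f hf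
    exact Finset.sum_eq_single i (fun k _ hk => hf k hk) (fun h => absurd (Finset.mem_univ i) h)
  have hc' : ∀ k, k ≠ i → c k = 0 := fun k hk => hc k (by simp [hk])
  have : qf D.g c = c i ^ 2 := by
    unfold qf bf
    rw [hsum _ (fun k hk => Finset.sum_eq_zero fun l _ => by rw [hc' k hk]; ring)]
    rw [hsum _ (fun k hk => by rw [hc' k hk]; ring), D.self]
    ring
  rw [this]
  positivity

/-- facets which do not intersect -/
theorem fl_lt_of_not_pd {i j : D.ι} (hij : i ≠ j) (h : ¬ PD D.g {i, j}) : D.g i j < -1 := by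
  rcases D.off i j hij with ⟨m, hm, hg⟩ | hg
  · exfalso
    apply h
    refine D.fl_pd_pair hij ?_
    rw [hg]
    have h1 : Real.cos (Real.pi / m) < 1 := by
      have hm0 : (0 : ℝ) < m := by
        have : 0 < m := by omega
        exact_mod_cast this
      have h2 : (0 : ℝ) < Real.pi / m := by positivity
      have h3 : Real.pi / m ≤ Real.pi := by
        apply div_le_self Real.pi_pos.le
        have : 1 ≤ m := by omega
        exact_mod_cast this
      calc Real.cos (Real.pi / m) < Real.cos 0 :=
            Real.cos_lt_cos_of_nonneg_of_le_pi le_rfl h3 h2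
        _ = 1 := Real.cos_zero
    linarith
  · exact hg

variable {D}

theorem Flag.not_clique (hF : D.Flag) {S : Finset D.ι} (hS : n < S.card)
    (h : ∀ i ∈ S, ∀ j ∈ S, PD D.g {i, j}) : False := by
  have := D.card_le S (hF S h)
  omega

/-- no triangular 2-face -/
theorem Flag.no_tri (hF : D.Flag) {K : Finset D.ι} (hK : K ∈ Faces2 D.g n) :
    kF D.g n K ≠ 3 := by
  intro h3
  obtain ⟨a, b, c, h1, h2, h3⟩ := (D.face_struct hK).1 h3
  have hKc := (mem_Faces2.1 hK).1
  refine hF.not_clique (S := insert a (insert b (insert c K))) ?_ ?_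
  · rw [Finset.card_insert_of_notMem, Finset.card_insert_of_notMem,
      Finset.card_insert_of_notMem h2.2.1]
    · omega
    · simp [h3.2.2.1, h1.2.1]
    · simp [h1.2.2.1, h2.2.2.1, h1.1]
  · have p1 := h1.2.2.2
    have p2 := h2.2.2.2
    have p3 := h3.2.2.2
    intro i hi j hj
    simp only [Finset.mem_insert] at hi hj
    rcases hi with rfl | rfl | rfl | hi <;> rcases hj with rfl | rfl | rfl | hj <;>
      first
      | (refine D.fl_sub p1 ?_ ?_ <;> (simp [*]; done))
      | (refine D.fl_sub p2 ?_ ?_ <;> (simp [*]; done))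
      | (refine D.fl_sub p3 ?_ ?_ <;> (simp [*]; done))

/-- opposite sides of a quadrangular 2-face lie on facets which do not intersect -/
theorem Flag.opp (hF : D.Flag) {K : Finset D.ι} (hKc : K.card + 2 = n) {i i' j : D.ι}
    (hii : i ≠ i') (h1 : D.Lk K i j) (h2 : D.Lk K i' j) : D.g i i' < -1 := by
  refine D.fl_lt_of_not_pd hii fun hpd => ?_
  refine hF.not_clique (S := insert i (insert i' (insert j K))) ?_ ?_
  · rw [Finset.card_insert_of_notMem, Finset.card_insert_of_notMem,
      Finset.card_insert_of_notMem h1.2.1]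
    · omega
    · simp [h2.2.2.1, h2.1]
    · simp [h1.2.2.1, hii, h1.1]
  · have p1 := h1.2.2.2
    have p2 := h2.2.2.2
    have p3 : PD D.g {i', i} := by rw [Finset.pair_comm]; exact hpd
    intro a ha b hb
    simp only [Finset.mem_insert] at ha hb
    rcases ha with rfl | rfl | rfl | ha <;> rcases hb with rfl | rfl | rfl | hb <;>
      first
      | exact hpd
      | exact p3
      | (refine D.fl_sub p1 ?_ ?_ <;> (simp [*]; done))
      | (refine D.fl_sub p2 ?_ ?_ <;> (simp [*]; done))

/-- a quadrangular 2-face has an adjacent corner -/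
theorem Flag.corn_pos (hF : D.Flag) {K : Finset D.ι} (hK : K ∈ Faces2 D.g n)
    (h4 : kF D.g n K = 4) : 1 ≤ D.corn K := by
  classical
  obtain ⟨i, i', j, j', h1, h2, h3, h4, h5, h6, h7, h8⟩ := (D.face_struct hK).2.1 h4
  have hKc := (mem_Faces2.1 hK).1
  by_contra hcon
  have hK3 : D.corn K = 0 := by omega
  have hz : ∀ a b, D.Lk K a b → D.g a b = 0 := by
    intro a b hab
    by_contra hne
    unfold corn at hK3
    rw [Finset.card_eq_zero] at hK3
    have hmem : insert a (insert b K) ∈ (Verts D.g n).filter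
        (fun v => K ⊆ v ∧ AdjP D.g (v \ K)) := by
      rw [Finset.mem_filter, mem_Verts]
      refine ⟨⟨hab.2.2.2, ?_⟩, ?_, a, ?_, b, ?_, hab.2.2.1, hne⟩
      · rw [Finset.card_insert_of_notMem, Finset.card_insert_of_notMem hab.2.1]
        · omega
        · simp [hab.2.2.1, hab.1]
      · intro z hz; simp [hz]
      · simp [hab.1]
      · simp [hab.2.1]
    rw [hK3] at hmem
    exact absurd hmem (Finset.notMem_empty _)
  have hii := hF.opp hKc h1 h3 h5
  have hjj := hF.opp hKc h2 (h3.symm D) (h4.symm D)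
  let c : D.ι → ℝ := fun k => if k = i ∨ k = i' then 1 else 0
  let d : D.ι → ℝ := fun k => if k = j ∨ k = j' then 1 else 0
  have hc : qf D.g c = 2 + 2 * D.g i i' := by
    rw [D.fl_qf_pair h1 (c := c) (fun k hk => by
      simp only [Finset.mem_insert, Finset.mem_singleton] at hk
      simp [c, hk])]
    simp only [c, true_or, or_true, if_true]
    ring
  have hd : qf D.g d = 2 + 2 * D.g j j' := by
    rw [D.fl_qf_pair h2 (c := d) (fun k hk => by
      simp only [Finset.mem_insert, Finset.mem_singleton] at hk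
      simp [d, hk])]
    simp only [d, true_or, or_true, if_true]
    ring
  have hb : bf D.g c d = 0 := by
    unfold bf
    refine Finset.sum_eq_zero fun k _ => Finset.sum_eq_zero fun l _ => ?_
    by_cases hk : k = i ∨ k = i'
    · by_cases hl : l = j ∨ l = j'
      · have : D.g k l = 0 := by
          rcases hk with rfl | rfl <;> rcases hl with rfl | rfl
          · exact hz _ _ h3
          · exact hz _ _ h4
          · exact hz _ _ h5
          · exact hz _ _ h6
        rw [this, mul_zero]
      · simp [d, hl]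
    · simp [c, hk]
  have := D.sig c d (by rw [hc]; linarith) hb
  rw [hd] at this
  linarith

/-- **the account of a flag polytope** -/
theorem Flag.account (hF : D.Flag) (hn : 2 ≤ n) :
    ∑ K ∈ Faces2 D.g n, max (5 - (kF D.g n K : ℝ)) 0 ≤
      ((n : ℝ) - 1) * (Verts D.g n).card := by
  classical
  have h1 : ∑ K ∈ Faces2 D.g n, max (5 - (kF D.g n K : ℝ)) 0 ≤
      ∑ K ∈ Faces2 D.g n, (D.corn K : ℝ) := by
    refine Finset.sum_le_sum fun K hK => ?_
    have hcn : (0 : ℝ) ≤ D.corn K := Nat.cast_nonneg _
    have hge := (D.face_struct hK).2.2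
    have hk3 := hF.no_tri hK
    by_cases hk4 : kF D.g n K = 4
    · have h2 := hF.corn_pos hK hk4
      have h3 : (1 : ℝ) ≤ D.corn K := by exact_mod_cast h2
      rw [hk4]
      refine max_le ?_ hcn
      push_cast
      linarith
    · have h5 : 5 ≤ kF D.g n K := by omega
      have h5' : (5 : ℝ) ≤ kF D.g n K := by exact_mod_cast h5
      refine max_le ?_ hcn
      linarith
  have h4 := D.sum_corn hn
  have h4' : ∑ K ∈ Faces2 D.g n, (D.corn K : ℝ) = ∑ v ∈ Verts D.g n, (eN D.g v : ℝ) := by
    exact_mod_cast h4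
  have h5 : ∑ v ∈ Verts D.g n, (eN D.g v : ℝ) ≤ ∑ v ∈ Verts D.g n, ((n : ℝ) - 1) := by
    refine Finset.sum_le_sum fun v hv => ?_
    obtain ⟨hv1, hv2⟩ := mem_Verts.1 hv
    have hne : v.Nonempty := by
      rw [← Finset.card_pos]; omega
    have h6 := D.eN_lt hv1 hne
    rw [hv2] at h6
    have h7 : ((eN D.g v + 1 : ℕ) : ℝ) ≤ (n : ℝ) := by exact_mod_cast h6
    push_cast at h7
    linarith
  rw [Finset.sum_const, nsmul_eq_mul] at h5
  linarith

/-- the dimension of a flag polytope -/
theorem Flag.dim_le (hF : D.Flag) (hn : 2 ≤ n)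
    (h1 : (n : ℝ) * (n - 6) * (Verts D.g n).card <
      8 * ∑ K ∈ Faces2 D.g n, max (5 - (kF D.g n K : ℝ)) 0)
    (h2 : ∀ m : ℕ, n = 2 * m + 1 → ((n : ℝ) - 1) * (n - 5) * (Verts D.g n).card <
      8 * ∑ K ∈ Faces2 D.g n, max (5 - (kF D.g n K : ℝ)) 0) : n ≤ 12 := by
  have h3 := hF.account hn
  have hpos : (0 : ℝ) < (Verts D.g n).card := by
    exact_mod_cast Finset.card_pos.2 D.verts_nonempty
  by_contra hlt
  push Not at hlt
  rcases Nat.even_or_odd' n with ⟨m, hm | hm⟩
  · have h14 : (14 : ℝ) ≤ n := by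
      have : 14 ≤ n := by omega
      exact_mod_cast this
    have h5 : (n : ℝ) * (n - 6) * (Verts D.g n).card < 8 * ((n : ℝ) - 1) * (Verts D.g n).card := by
      linarith
    have h6 := lt_of_mul_lt_mul_right h5 hpos.le
    nlinarith
  · have h13 : (13 : ℝ) ≤ n := by exact_mod_cast hlt
    have h5 : ((n : ℝ) - 1) * (n - 5) * (Verts D.g n).card <
        8 * ((n : ℝ) - 1) * (Verts D.g n).card := by
      have := h2 m hm
      linarith
    have h6 := lt_of_mul_lt_mul_right h5 hpos.le
    nlinarith

end CoxData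

end MP345
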