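import Mathlib
import Pool.Agent.Work.MP_345ef2_flag.Flag

/-!
# Dihedral angles `π / 2` and `π / 3` only: the polytope is flag (MP_345ef2_gt)

A minimal set of facets which is not positive definite, with at least three elements, all whose
entries are `0` or `-1/2`, does not exist: take a nonzero vector `x` of natural numbers with
`q x ≤ 0` and smallest sum `N`.  Then `q (x - e i) ≥ 1` as it is an integer, so
`(G x) i ≤ q x / 2`, so `q x < 0` (there are no parabolic sets) and
`q x = ∑ x i (G x) i ≤ N q x / 2 < q x`.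
-/

namespace MP345

open Finset

variable {n : ℕ}

namespace CoxData

variable (D : CoxData n)

/-- `G c` -/
noncomputable def gr (c : D.ι → ℝ) (i : D.ι) : ℝ := ∑ j, D.g i j * c j

theorem sl_qf (c : D.ι → ℝ) : qf D.g c = ∑ i, c i * D.gr c i := by
  unfold qf bf gr
  refine Finset.sum_congr rfl fun i _ => ?_
  rw [Finset.mul_sum]
  exact Finset.sum_congr rfl fun j _ => by ring

/-- adding a multiple of a unit vector -/
theorem sl_add (c : D.ι → ℝ) (i : D.ι) (t : ℝ) :
    qf D.g (fun k => c k + if k = i then t else 0) = qf D.g c + 2 * t * D.gr c i + t ^ 2 := by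
  have e1 : ∀ k l, (c k + if k = i then t else 0) * (c l + if l = i then t else 0) * D.g k l =
      c k * c l * D.g k l + (if k = i then t * (D.g i l * c l) else 0) +
        (if l = i then t * (D.g i k * c k) else 0) +
        (if k = i then (if l = i then t ^ 2 else 0) else 0) := by
    intro k l
    by_cases hk : k = i <;> by_cases hl : l = i
    · subst hk; subst hl
      simp only [if_true, D.self]
      ring
    · subst hk
      simp only [if_true, if_neg hl]
      ring
    · subst hl
      simp only [if_true, if_neg hk, D.symm k l]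
      ring
    · simp only [if_neg hk, if_neg hl]
      ring
  unfold qf bf gr
  simp only [e1, Finset.sum_add_distrib]
  have e2 : ∑ k, ∑ l, (if k = i then t * (D.g i l * c l) else 0) =
      t * ∑ l, D.g i l * c l := by
    rw [Finset.sum_eq_single i]
    · simp only [if_true]
      rw [Finset.mul_sum]
    · intro k _ hk
      simp [hk]
    · intro h
      exact absurd (Finset.mem_univ i) h
  have e3 : ∑ k, ∑ l, (if l = i then t * (D.g i k * c k) else 0) =
      t * ∑ k, D.g i k * c k := by
    rw [Finset.mul_sum]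
    refine Finset.sum_congr rfl fun k _ => ?_
    rw [Finset.sum_ite_eq']
    simp
  have e4 : ∑ k : D.ι, ∑ l : D.ι, (if k = i then (if l = i then t ^ 2 else 0) else 0) = t ^ 2 := by
    rw [Finset.sum_eq_single i]
    · simp
    · intro k _ hk
      simp [hk]
    · intro h
      exact absurd (Finset.mem_univ i) h
  rw [e2, e3, e4]
  ring

theorem sl_abs (c : D.ι → ℝ) : qf D.g (fun i => |c i|) ≤ qf D.g c := by
  unfold qf bf
  refine Finset.sum_le_sum fun i _ => Finset.sum_le_sum fun j _ => ?_
  by_cases hij : i = j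
  · subst hij
    rw [D.self, abs_mul_abs_self]
  · have h1 := D.g_nonpos hij
    have h2 : c i * c j ≤ |c i| * |c j| := by rw [← abs_mul]; exact le_abs_self _
    exact mul_le_mul_of_nonpos_right h2 h1

/-- a set which is not positive definite has a nonnegative vector with negative value -/
theorem sl_neg {S : Finset D.ι} (hS : ¬ PD D.g S) :
    ∃ b : D.ι → ℝ, (∀ i, i ∉ S → b i = 0) ∧ (∀ i, 0 ≤ b i) ∧ qf D.g b < 0 := by
  unfold PD at hS
  push Not at hS
  obtain ⟨c, hc, hc0, hq⟩ := hS
  set b : D.ι → ℝ := fun i => |c i| with hb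
  have hb0 : ∀ i, 0 ≤ b i := fun i => abs_nonneg _
  have hbS : ∀ i, i ∉ S → b i = 0 := fun i hi => by simp [hb, hc i hi]
  have hbne : b ≠ 0 := by
    intro h
    apply hc0
    funext i
    have := congrFun h i
    simpa [hb] using this
  have hqb : qf D.g b ≤ 0 := (D.sl_abs c).trans hq
  rcases hqb.lt_or_eq with h | h
  · exact ⟨b, hbS, hb0, h⟩
  · obtain ⟨i, hi1, hi2⟩ : ∃ i, 0 < b i ∧ 0 < D.gr b i := by
      by_contra hcon
      push Not at hcon
      have := D.noPar b hb0 hbne fun i hi => hcon i hi
      linarith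
    set t := min (b i) (D.gr b i) with ht
    have ht0 : 0 < t := lt_min hi1 hi2
    have ht1 : t ≤ b i := min_le_left _ _
    have ht2 : t ≤ D.gr b i := min_le_right _ _
    have hiS : i ∈ S := by
      by_contra hn
      rw [hbS i hn] at hi1
      exact lt_irrefl _ hi1
    refine ⟨fun k => b k + if k = i then -t else 0, ?_, ?_, ?_⟩
    · intro k hk
      have : k ≠ i := fun e => hk (e ▸ hiS)
      simp [this, hbS k hk]
    · intro k
      by_cases hk : k = i
      · subst hk
        simp only [if_true]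
        linarith
      · simp only [if_neg hk, add_zero]
        exact hb0 k
    · rw [D.sl_add, h]
      nlinarith

/-- and a vector of natural numbers -/
theorem sl_nat {S : Finset D.ι} (hS : ¬ PD D.g S) :
    ∃ x : D.ι → ℕ, (∀ i, i ∉ S → x i = 0) ∧ qf D.g (fun i => (x i : ℝ)) < 0 := by
  obtain ⟨b, hbS, hb0, hq⟩ := D.sl_neg hS
  have h1 : ∀ i, Filter.Tendsto (fun M : ℕ => ((⌊b i * M⌋₊ : ℕ) : ℝ) / M) Filter.atTop
      (nhds (b i)) := by
    intro i
    have := (tendsto_nat_floor_mul_div_atTop (R := ℝ) (hb0 i)).comp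
      (tendsto_natCast_atTop_atTop (R := ℝ))
    exact this
  have h2 : Filter.Tendsto (fun M : ℕ => qf D.g (fun i => ((⌊b i * M⌋₊ : ℕ) : ℝ) / M))
      Filter.atTop (nhds (qf D.g b)) := by
    unfold qf bf
    refine tendsto_finsetSum _ fun i _ => tendsto_finsetSum _ fun j _ => ?_
    exact ((h1 i).mul (h1 j)).mul_const _
  obtain ⟨M, hM1, hM2⟩ := ((h2.eventually (gt_mem_nhds hq)).and
    (Filter.eventually_gt_atTop 0)).exists
  refine ⟨fun i => ⌊b i * M⌋₊, fun i hi => ?_, ?_⟩
  · simp [hbS i hi]
  · have hM0 : (0 : ℝ) < M := by exact_mod_cast hM2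
    have h3 : qf D.g (fun i => ((⌊b i * M⌋₊ : ℕ) : ℝ) / M) * M ^ 2 =
        qf D.g (fun i => ((⌊b i * M⌋₊ : ℕ) : ℝ)) := by
      unfold qf bf
      rw [Finset.sum_mul]
      refine Finset.sum_congr rfl fun i _ => ?_
      rw [Finset.sum_mul]
      refine Finset.sum_congr rfl fun j _ => ?_
      field_simp
    rw [← h3]
    exact mul_neg_of_neg_of_pos hM1 (by positivity)

/-- the integers in the reals -/
def Zr : Subring ℝ := (Int.castRingHom ℝ).range

theorem mem_Zr {x : ℝ} : x ∈ Zr ↔ ∃ z : ℤ, (z : ℝ) = x := by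
  unfold Zr
  rw [RingHom.mem_range]
  rfl

theorem nat_mem_Zr (m : ℕ) : (m : ℝ) ∈ Zr := mem_Zr.2 ⟨m, by simp⟩

theorem one_le_of_Zr {x : ℝ} (hx : x ∈ Zr) (h : 0 < x) : 1 ≤ x := by
  obtain ⟨z, rfl⟩ := mem_Zr.1 hx
  have h1 : (0 : ℤ) < z := by exact_mod_cast h
  exact_mod_cast h1

/-- `2 (G x) i` is an integer -/
theorem sl_gr_int {S : Finset D.ι} (hg : ∀ i ∈ S, ∀ j ∈ S, i ≠ j → D.g i j = 0 ∨ D.g i j = -1 / 2)
    (x : D.ι → ℕ) (hx : ∀ i, i ∉ S → x i = 0) {i : D.ι} (hi : i ∈ S) :
    2 * D.gr (fun k => (x k : ℝ)) i ∈ Zr := by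
  unfold gr
  rw [Finset.mul_sum]
  refine sum_mem fun j _ => ?_
  by_cases hj : j ∈ S
  · by_cases hij : i = j
    · subst hij
      rw [D.self, one_mul]
      have := mul_mem (nat_mem_Zr 2) (nat_mem_Zr (x i))
      simpa using this
    · rcases hg i hi j hj hij with h | h
      · rw [h]
        simp [Zr.zero_mem]
      · rw [h]
        have e : 2 * (-1 / 2 * (x j : ℝ)) = -(x j : ℝ) := by ring
        rw [e]
        exact neg_mem (nat_mem_Zr _)
  · have e : 2 * (D.g i j * (fun k => (x k : ℝ)) j) = 0 := by simp [hx j hj]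
    rw [e]
    exact Zr.zero_mem

/-- the value of the form is an integer -/
theorem sl_qf_int {S : Finset D.ι} (hg : ∀ i ∈ S, ∀ j ∈ S, i ≠ j → D.g i j = 0 ∨ D.g i j = -1 / 2)
    (N : ℕ) : ∀ x : D.ι → ℕ, (∀ i, i ∉ S → x i = 0) → ∑ i, x i = N →
      qf D.g (fun k => (x k : ℝ)) ∈ Zr := by
  induction N with
  | zero =>
    intro x hx hs
    have h0 : ∀ i, x i = 0 := by
      intro i
      exact (Finset.sum_eq_zero_iff.1 hs) i (Finset.mem_univ i)
    have : qf D.g (fun k => (x k : ℝ)) = 0 := by
      unfold qf bf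
      refine Finset.sum_eq_zero fun i _ => Finset.sum_eq_zero fun j _ => ?_
      simp [h0 i]
    rw [this]
    exact Zr.zero_mem
  | succ N ih =>
    intro x hx hs
    obtain ⟨i, hi⟩ : ∃ i, 0 < x i := by
      by_contra hcon
      push Not at hcon
      have : ∑ i, x i = 0 := Finset.sum_eq_zero fun i _ => Nat.le_zero.1 (hcon i)
      omega
    have hiS : i ∈ S := by
      by_contra hn
      rw [hx i hn] at hi
      exact lt_irrefl _ hi
    let y : D.ι → ℕ := fun k => if k = i then x i - 1 else x k
    have hyS : ∀ k, k ∉ S → y k = 0 := by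
      intro k hk
      have : k ≠ i := fun e => hk (e ▸ hiS)
      simp [y, this, hx k hk]
    have hsum : ∑ k, y k = N := by
      have h1 : ∑ k, x k = x i + ∑ k ∈ Finset.univ.erase i, x k :=
        (Finset.add_sum_erase _ _ (Finset.mem_univ i)).symm
      have h2 : ∑ k, y k = y i + ∑ k ∈ Finset.univ.erase i, y k :=
        (Finset.add_sum_erase _ _ (Finset.mem_univ i)).symm
      have h3 : ∑ k ∈ Finset.univ.erase i, y k = ∑ k ∈ Finset.univ.erase i, x k := by
        refine Finset.sum_congr rfl fun k hk => ?_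
        have : k ≠ i := (Finset.mem_erase.1 hk).1
        simp [y, this]
      have h4 : y i = x i - 1 := by simp [y]
      omega
    have hxy : (fun k => (x k : ℝ)) = fun k => (y k : ℝ) + if k = i then 1 else 0 := by
      funext k
      by_cases hk : k = i
      · subst hk
        simp only [y, if_true]
        rw [Nat.cast_sub hi]
        push_cast
        ring
      · simp [y, hk]
    rw [hxy, D.sl_add (fun k => (y k : ℝ)) i 1]
    have h5 := ih y hyS hsum
    have h6 := D.sl_gr_int hg y hyS hiS
    have h7 : qf D.g (fun k => (y k : ℝ)) + 2 * 1 * D.gr (fun k => (y k : ℝ)) i + 1 ^ 2 =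
        qf D.g (fun k => (y k : ℝ)) + 2 * D.gr (fun k => (y k : ℝ)) i + 1 := by ring
    rw [h7]
    exact add_mem (add_mem h5 h6) Zr.one_mem

/-- **the minimal vector** -/
theorem sl_main {S : Finset D.ι} (hg : ∀ i ∈ S, ∀ j ∈ S, i ≠ j → D.g i j = 0 ∨ D.g i j = -1 / 2)
    (hS : ¬ PD D.g S) (hmin : ∀ i ∈ S, PD D.g (S.erase i)) (h3 : 3 ≤ S.card) : False := by
  classical
  let P : ℕ → Prop := fun N => ∃ x : D.ι → ℕ, (∀ i, i ∉ S → x i = 0) ∧
    qf D.g (fun k => (x k : ℝ)) ≤ 0 ∧ (∃ i, x i ≠ 0) ∧ ∑ i, x i = N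
  have hex : ∃ N, P N := by
    obtain ⟨x, hx, hq⟩ := D.sl_nat hS
    refine ⟨_, x, hx, hq.le, ?_, rfl⟩
    by_contra hcon
    push Not at hcon
    have : qf D.g (fun k => (x k : ℝ)) = 0 := by
      unfold qf bf
      refine Finset.sum_eq_zero fun i _ => Finset.sum_eq_zero fun j _ => ?_
      simp [hcon i]
    linarith
  obtain ⟨x, hx, hq, hne, hsum⟩ := Nat.find_spec hex
  set N := Nat.find hex with hN
  set c : D.ι → ℝ := fun k => (x k : ℝ) with hc
  -- the support is S
  have hpos : ∀ i ∈ S, 1 ≤ x i := by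
    intro i hi
    by_contra hcon
    have h0 : x i = 0 := by omega
    have h1 := hmin i hi c (fun k hk => by
      by_cases hki : k = i
      · rw [hki, hc]; simp [h0]
      · have : k ∉ S := fun h => hk (Finset.mem_erase.2 ⟨hki, h⟩)
        simp [hc, hx k this]) (by
      obtain ⟨j, hj⟩ := hne
      intro h
      have := congrFun h j
      simp [hc] at this
      exact hj this)
    linarith
  have hN3 : 3 ≤ N := by
    rw [← hsum]
    calc 3 ≤ S.card := h3
      _ = ∑ i ∈ S, 1 := by simp
      _ ≤ ∑ i ∈ S, x i := Finset.sum_le_sum fun i hi => hpos i hi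
      _ ≤ ∑ i, x i := Finset.sum_le_sum_of_subset (Finset.subset_univ S)
  -- rows
  have hrow : ∀ i ∈ S, 2 * D.gr c i ≤ qf D.g c := by
    intro i hi
    have hxi := hpos i hi
    let y : D.ι → ℕ := fun k => if k = i then x i - 1 else x k
    have hyS : ∀ k, k ∉ S → y k = 0 := by
      intro k hk
      have : k ≠ i := fun e => hk (e ▸ hi)
      simp [y, this, hx k hk]
    have hysum : ∑ k, y k = N - 1 := by
      have h1 : ∑ k, x k = x i + ∑ k ∈ Finset.univ.erase i, x k :=
        (Finset.add_sum_erase _ _ (Finset.mem_univ i)).symm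
      have h2 : ∑ k, y k = y i + ∑ k ∈ Finset.univ.erase i, y k :=
        (Finset.add_sum_erase _ _ (Finset.mem_univ i)).symm
      have h3 : ∑ k ∈ Finset.univ.erase i, y k = ∑ k ∈ Finset.univ.erase i, x k := by
        refine Finset.sum_congr rfl fun k hk => ?_
        have : k ≠ i := (Finset.mem_erase.1 hk).1
        simp [y, this]
      have h4 : y i = x i - 1 := by simp [y]
      omega
    have hyc : (fun k => (y k : ℝ)) = fun k => c k + if k = i then -1 else 0 := by
      funext k
      by_cases hk : k = i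
      · subst hk
        simp only [y, if_true, hc]
        rw [Nat.cast_sub hxi]
        push_cast
        ring
      · simp [y, hk, hc]
    have h5 := D.sl_add c i (-1)
    rw [← hyc] at h5
    have h6 : qf D.g (fun k => (y k : ℝ)) ∈ Zr := D.sl_qf_int hg _ y hyS rfl
    have h7 : 0 < qf D.g (fun k => (y k : ℝ)) := by
      by_contra hcon
      push Not at hcon
      have hlt : N - 1 < N := by omega
      refine Nat.find_min hex hlt ⟨y, hyS, hcon, ?_, hysum⟩
      by_contra hall
      push Not at hall
      have : ∑ k, y k = 0 := Finset.sum_eq_zero fun k _ => hall k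
      omega
    have h8 := one_le_of_Zr h6 h7
    linarith
  have hc0 : ∀ i, 0 ≤ c i := fun i => Nat.cast_nonneg _
  have hcne : c ≠ 0 := by
    obtain ⟨j, hj⟩ := hne
    intro h
    have := congrFun h j
    simp [hc] at this
    exact hj this
  have hsupp : ∀ i, 0 < c i → i ∈ S := by
    intro i hi
    by_contra hn
    simp [hc, hx i hn] at hi
  have hqneg : qf D.g c < 0 := by
    refine D.noPar c hc0 hcne fun i hi => ?_
    have := hrow i (hsupp i hi)
    unfold gr at this
    linarith
  have h9 : qf D.g c ≤ ∑ i, c i * (qf D.g c / 2) := by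
    conv_lhs => rw [D.sl_qf]
    refine Finset.sum_le_sum fun i _ => ?_
    rcases (hc0 i).lt_or_eq with h | h
    · refine mul_le_mul_of_nonneg_left ?_ h.le
      have := hrow i (hsupp i h)
      linarith
    · rw [← h]; simp
  rw [← Finset.sum_mul] at h9
  have h10 : ∑ i, c i = (N : ℝ) := by
    rw [← hsum]; push_cast; rfl
  rw [h10] at h9
  have h11 : (3 : ℝ) ≤ N := by exact_mod_cast hN3
  nlinarith

/-- **the polytope is flag** -/
theorem flag_of_simply (hg : ∀ i j, i ≠ j → PD D.g {i, j} → D.g i j = 0 ∨ D.g i j = -1 / 2) :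
    D.Flag := by
  classical
  intro S
  induction S using Finset.strongInduction with
  | H S ih =>
    intro hS
    by_contra hcon
    have hmin : ∀ i ∈ S, PD D.g (S.erase i) := fun i hi =>
      ih _ (Finset.erase_ssubset hi) fun a ha b hb =>
        hS a (Finset.mem_of_mem_erase ha) b (Finset.mem_of_mem_erase hb)
    have h3 : 3 ≤ S.card := by
      by_contra hlt
      have h4 : S.card = 0 ∨ S.card = 1 ∨ S.card = 2 := by omega
      rcases h4 with h | h | h
      · rw [Finset.card_eq_zero] at h
        subst h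
        exact hcon (pd_empty _)
      · obtain ⟨a, rfl⟩ := Finset.card_eq_one.1 h
        have := hS a (by simp) a (by simp)
        apply hcon
        simpa using this
      · obtain ⟨a, b, hab, rfl⟩ := Finset.card_eq_two.1 h
        exact hcon (hS a (by simp) b (by simp))
    exact D.sl_main (fun i hi j hj hij => hg i j hij (hS i hi j hj)) hcon hmin h3

end CoxData

end MP345
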