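import Mathlib
import Pool.Agent.Work.MP_345ef2_flag.Simply

/-!
# Flag compact hyperbolic Coxeter polytopes: the bound (MP_345ef2_gt)
-/

namespace MP345

open Finset

variable {n : ℕ}

/-- the cone of a compact Coxeter polytope, with the same normals -/
theorem fl_cone (hn : 1 ≤ n) (P : CoxeterPolytope n) :
    ∃ (C : Cone n) (e : C.ι ≃ P.ι), ∀ i, C.u i = P.u (e i) := by
  obtain ⟨p, hpH, hpu⟩ := P.interior
  have hp : lor p p < 0 := by rw [hpH.1]; norm_num
  classical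
  refine ⟨{ ι := P.ι, u := P.u, unit := P.unit, p := p, hp := hp, hpu := hpu,
            hcone := fun x hx hx0 => (cone_timelike hn P hx hx0).1,
            hconep := fun x hx hx0 => ?_,
            facet := fun i => ?_, angle := fun i j hij h => ?_ }, Equiv.refl _, fun i => rfl⟩
  · have := cone_timelike hn P hx hx0
    exact lor_neg_of_future hp hpH.2 this.1 this.2
  · obtain ⟨x, hxH, h1, h2⟩ := P.facet i
    refine ⟨x, ?_, h1, h2⟩
    exact lor_neg_of_future hp hpH.2 (by rw [hxH.1]; norm_num) hxH.2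
  · obtain ⟨x, hx0, h1, h2, h3⟩ := h
    have hxC : ∀ k, lor x (P.u k) ≤ 0 := by
      intro k
      by_cases hk1 : k = i
      · rw [hk1, h1]
      by_cases hk2 : k = j
      · rw [hk2, h2]
      exact (h3 k hk1 hk2).le
    have ht := cone_timelike hn P hxC hx0
    set s := Real.sqrt (- lor x x) with hs
    have hspos : 0 < s := Real.sqrt_pos.2 (by linarith [ht.1])
    have hs2 : s ^ 2 = - lor x x := Real.sq_sqrt (by linarith [ht.1])
    have hsi : 0 < s⁻¹ := inv_pos.2 hspos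
    refine P.angle i j hij ⟨s⁻¹ • x, ⟨?_, ?_⟩, ?_, ?_, ?_⟩
    · rw [lor_smul_left, lor_smul_right]
      have : lor x x = - s ^ 2 := by linarith
      rw [this]; field_simp
    · simp only [Pi.smul_apply, smul_eq_mul]
      exact mul_pos hsi ht.2
    · rw [lor_smul_left, h1, mul_zero]
    · rw [lor_smul_left, h2, mul_zero]
    · intro k hk1 hk2
      rw [lor_smul_left]
      exact mul_neg_of_pos_of_neg hsi (h3 k hk1 hk2)

/-- the facets of a positive definite set have a common point, which lies on no other facet -/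
theorem fl_point (hn : 1 ≤ n) (P : CoxeterPolytope n) (C : Cone n) (e : C.ι ≃ P.ι)
    (he : ∀ i, C.u i = P.u (e i)) {S : Finset C.ι} (hS : PD C.g S) :
    ∃ x ∈ Hyp n, (∀ i ∈ S, lor x (P.u (e i)) = 0) ∧ ∀ i, i ∉ S → lor x (P.u (e i)) < 0 := by
  obtain ⟨x, hp, h1, h2⟩ := C.exists_point hS
  have hx0 : x ≠ 0 := by
    intro h0; rw [h0] at hp; simp at hp
  have hxC : ∀ k, lor x (P.u k) ≤ 0 := by
    intro k
    have hk : P.u k = C.u (e.symm k) := by rw [he, e.apply_symm_apply]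
    rw [hk]
    by_cases hS : e.symm k ∈ S
    · rw [h1 _ hS]
    · exact (h2 _ hS).le
  have ht := cone_timelike hn P hxC hx0
  set s := Real.sqrt (- lor x x) with hs
  have hspos : 0 < s := Real.sqrt_pos.2 (by linarith [ht.1])
  have hs2 : s ^ 2 = - lor x x := Real.sq_sqrt (by linarith [ht.1])
  have hsi : 0 < s⁻¹ := inv_pos.2 hspos
  refine ⟨s⁻¹ • x, ⟨?_, ?_⟩, ?_, ?_⟩
  · rw [lor_smul_left, lor_smul_right]
    have : lor x x = - s ^ 2 := by linarith
    rw [this]; field_simp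
  · simp only [Pi.smul_apply, smul_eq_mul]
    exact mul_pos hsi ht.2
  · intro i hi
    rw [lor_smul_left, ← he, h1 i hi, mul_zero]
  · intro i hi
    rw [lor_smul_left, ← he]
    exact mul_neg_of_pos_of_neg hsi (h2 i hi)

theorem fl_dim {C : Cone n} (hn : 2 ≤ n) (hF : C.toCoxData.Flag) : n ≤ 12 :=
  hF.dim_le hn (C.count_lt hn) fun m hm => C.count_odd_lt hm (by omega)

theorem fl_key (hn : 1 ≤ n) (P : CoxeterPolytope n) (C : Cone n) (e : C.ι ≃ P.ι)
    (he : ∀ i, C.u i = P.u (e i))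
    (h : ∀ S : Finset P.ι,
      (∀ i ∈ S, ∀ j ∈ S, ∃ x ∈ Hyp n, lor x (P.u i) = 0 ∧ lor x (P.u j) = 0 ∧
        ∀ k, lor x (P.u k) ≤ 0) →
      ∃ x ∈ Hyp n, (∀ i ∈ S, lor x (P.u i) = 0) ∧ ∀ k, lor x (P.u k) ≤ 0)
    (S : Finset C.ι) (hS : ∀ i ∈ S, ∀ j ∈ S, PD C.g {i, j}) : PD C.g S := by
  obtain ⟨x, hxH, h1, -⟩ := h (S.map e.toEmbedding) (by
    intro i hi j hj
    obtain ⟨i', hi', rfl⟩ := Finset.mem_map.1 hi
    obtain ⟨j', hj', rfl⟩ := Finset.mem_map.1 hj
    obtain ⟨x, hxH, h1, h2⟩ := fl_point hn P C e he (hS i' hi' j' hj')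
    refine ⟨x, hxH, h1 i' (by simp), h1 j' (by simp), fun k => ?_⟩
    have hk : P.u k = P.u (e (e.symm k)) := by rw [e.apply_symm_apply]
    rw [hk]
    by_cases hk' : e.symm k ∈ ({i', j'} : Finset C.ι)
    · rw [h1 _ hk']
    · exact (h2 _ hk').le)
  refine C.pd_of_tight (x := x) (by rw [hxH.1]; norm_num) fun i hi => ?_
  rw [he]
  exact h1 _ (Finset.mem_map.2 ⟨i, hi, rfl⟩)

theorem fl_key2 (hn : 1 ≤ n) (P : CoxeterPolytope n) (C : Cone n) (e : C.ι ≃ P.ι)
    (he : ∀ i, C.u i = P.u (e i))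
    (h : ∀ i j, i ≠ j → (∃ x ∈ Hyp n, lor x (P.u i) = 0 ∧ lor x (P.u j) = 0 ∧
        ∀ k, k ≠ i → k ≠ j → lor x (P.u k) < 0) →
      lor (P.u i) (P.u j) = 0 ∨ lor (P.u i) (P.u j) = -1 / 2)
    (i j : C.ι) (hij : i ≠ j) (hpd : PD C.g {i, j}) : C.g i j = 0 ∨ C.g i j = -1 / 2 := by
  unfold Cone.g
  rw [he, he]
  obtain ⟨x, hxH, h1, h2⟩ := fl_point hn P C e he (S := {i, j}) hpd
  refine h _ _ (fun hh => hij (e.injective hh)) ⟨x, hxH, h1 i (by simp), h1 j (by simp), ?_⟩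
  intro k hki hkj
  have hk : P.u k = P.u (e (e.symm k)) := by rw [e.apply_symm_apply]
  rw [hk]
  refine h2 _ ?_
  simp only [Finset.mem_insert, Finset.mem_singleton, not_or]
  exact ⟨fun hh => hki (by rw [← hh, e.apply_symm_apply]),
    fun hh => hkj (by rw [← hh, e.apply_symm_apply])⟩

/-- **Flag compact Coxeter polytopes have dimension at most 12.** -/
theorem dim_le_of_flag (P : CoxeterPolytope n)
    (h : ∀ S : Finset P.ι,
      (∀ i ∈ S, ∀ j ∈ S, ∃ x ∈ Hyp n, lor x (P.u i) = 0 ∧ lor x (P.u j) = 0 ∧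
        ∀ k, lor x (P.u k) ≤ 0) →
      ∃ x ∈ Hyp n, (∀ i ∈ S, lor x (P.u i) = 0) ∧ ∀ k, lor x (P.u k) ≤ 0) : n ≤ 12 := by
  rcases Nat.lt_or_ge n 2 with hn | hn
  · omega
  obtain ⟨C, e, he⟩ := fl_cone (by omega) P
  exact fl_dim (C := C) hn (fl_key (by omega) P C e he h)

/-- **Compact Coxeter polytopes all whose dihedral angles are `π / 2` or `π / 3` have dimension at
most 12.** -/
theorem dim_le_of_angles (P : CoxeterPolytope n)
    (h : ∀ i j, i ≠ j → (∃ x ∈ Hyp n, lor x (P.u i) = 0 ∧ lor x (P.u j) = 0 ∧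
        ∀ k, k ≠ i → k ≠ j → lor x (P.u k) < 0) →
      lor (P.u i) (P.u j) = 0 ∨ lor (P.u i) (P.u j) = -1 / 2) : n ≤ 12 := by
  rcases Nat.lt_or_ge n 2 with hn | hn
  · omega
  obtain ⟨C, e, he⟩ := fl_cone (by omega) P
  exact fl_dim (C := C) hn (C.toCoxData.flag_of_simply (fl_key2 (by omega) P C e he h))

end MP345
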